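import Pool.Agent.Q32.LR2.Stm

/-! Project LR2 (helper32), job CUT: the cuts of the coset graph. -/

set_option autoImplicit false

namespace Q251.LR2

open Q32.LR2
open Pointwise

theorem biUnion_bound {α ι : Type} (s : Finset ι) (A : ι → Set α) (b : ι → ℕ)
    (h : ∀ i ∈ s, (A i).Finite ∧ (A i).ncard ≤ b i) :
    (⋃ i ∈ s, A i).Finite ∧ (⋃ i ∈ s, A i).ncard ≤ ∑ i ∈ s, b i := by
  classical
  induction s using Finset.induction_on with
  | empty =>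
    simp
  | insert a s ha ih =>
    obtain ⟨h1, h2⟩ := ih fun i hi => h i (Finset.mem_insert_of_mem hi)
    obtain ⟨h3, h4⟩ := h a (Finset.mem_insert_self _ _)
    have e1 : (⋃ i ∈ insert a s, A i) = A a ∪ ⋃ i ∈ s, A i := by
      rw [Finset.set_biUnion_insert]
    rw [e1, Finset.sum_insert ha]
    refine ⟨h3.union h1, ?_⟩
    have h5 := Set.ncard_union_le (A a) (⋃ i ∈ s, A i)
    omega

/-- representatives of `H` modulo `F ∩ H` -/
theorem exists_reps {G : Type} [Group G] (F H : Subgroup G) [F.FiniteIndex] :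
    ∃ R : Finset G, (∀ r ∈ R, r ∈ H) ∧ ∀ h ∈ H, ∃ r ∈ R, ∃ h0 ∈ F ⊓ H, h = r * h0 := by
  classical
  have : Finite (G ⧸ F) := Subgroup.finite_quotient_of_finiteIndex
  have := Fintype.ofFinite (G ⧸ F)
  let f : G ⧸ F → G := fun q => if hq : ∃ h ∈ H, (h : G ⧸ F) = q then hq.choose else 1
  refine ⟨Finset.univ.image f, ?_, ?_⟩
  · intro r hr
    obtain ⟨q, -, rfl⟩ := Finset.mem_image.1 hr
    by_cases hq : ∃ h ∈ H, (h : G ⧸ F) = q
    · have e1 : f q = hq.choose := dif_pos hq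
      rw [e1]
      exact hq.choose_spec.1
    · have e1 : f q = 1 := dif_neg hq
      rw [e1]
      exact H.one_mem
  · intro h hh
    have hq : ∃ h' ∈ H, (h' : G ⧸ F) = (h : G ⧸ F) := ⟨h, hh, rfl⟩
    have e1 : f (h : G ⧸ F) = hq.choose := dif_pos hq
    obtain ⟨g1, g2⟩ := hq.choose_spec
    refine ⟨f (h : G ⧸ F), Finset.mem_image_of_mem _ (Finset.mem_univ _), (f (h : G ⧸ F))⁻¹ * h, ?_, ?_⟩
    · rw [e1]
      exact ⟨QuotientGroup.eq.1 g2, H.mul_mem (H.inv_mem g1) hh⟩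
    · group

section conj

variable {G Y : Type} [Group G] (F : Subgroup G) [F.Normal] (e : F ≃* FreeGroup Y)

/-- the isomorphism `k ↦ e (r⁻¹ k r)` -/
noncomputable def cj (r : G) : F ≃* FreeGroup Y := (MulAut.conjNormal r⁻¹ : F ≃* F).trans e

variable [DecidableEq Y]

theorem cj_mem (b1 : ∀ (W : Set Y) (g : F), (g : G) ∈ BB F e W ↔ e g ∈ FW W) (r : G) (W : Set Y)
    (k : F) : cj F e r k ∈ FW W ↔ r⁻¹ * k * r ∈ BB F e W := by
  have h1 : cj F e r k = e (MulAut.conjNormal r⁻¹ k) := rfl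
  rw [h1, ← b1]
  have h2 : ((MulAut.conjNormal r⁻¹ k : F) : G) = r⁻¹ * k * r := by
    rw [MulAut.conjNormal_apply, inv_inv]
  rw [h2]

end conj

theorem t_CUT : S_CUT := by
  intro hSUB hF0 hF1 hF2 G Y _ _ F H _ _ e W W' hWW hFH S hS
  classical
  obtain ⟨b1, b2, b3, b4, b5, b6, b7, b8, -, -⟩ := hSUB G Y F H e
  obtain ⟨f1, -⟩ := hF1 hF0 Y
  have f2 := hF2 hF0 Y
  have hFH' : F ⊓ H ≤ AA F H e W' := b7 W' (hFH.trans (b4 W W' hWW).2)
  have hHL : ∀ W : Set Y, H ≤ LL F H e W := fun W => le_sup_left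
  have hAL : ∀ W : Set Y, AA F H e W ≤ LL F H e W := fun W => le_sup_right
  have hAF : ∀ W : Set Y, AA F H e W ≤ F := fun W => (b3 W).trans (b2 W)
  obtain ⟨R, hR1, hR2⟩ := exists_reps F H
  -- the other decomposition
  have hR3 : ∀ h ∈ H, ∃ r ∈ R, ∃ h0 ∈ F ⊓ H, h = h0 * r := by
    intro h hh
    obtain ⟨r, hr, h0, hh0, e1⟩ := hR2 h hh
    refine ⟨r, hr, r * h0 * r⁻¹, ⟨?_, ?_⟩, ?_⟩
    · exact Subgroup.Normal.conj_mem inferInstance h0 hh0.1 r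
    · exact H.mul_mem (H.mul_mem (hR1 r hr) hh0.2) (H.inv_mem (hR1 r hr))
    · rw [e1]
      group
  -- the elements `c`
  have hc : ∀ (ρ : G) (t : LL F H e W'), ∃ (c : F) (η : G), ρ ∈ H →
      ((c : G) ∈ AA F H e W' ∧ η ∈ H ∧ ρ * (t : G) = c * η) := by
    intro ρ t
    by_cases hρ : ρ ∈ H
    · have h1 : ρ * (t : G) ∈ LL F H e W' := Subgroup.mul_mem _ (hHL W' hρ) t.2
      obtain ⟨a, ha, h, hh, e1⟩ := (b6 W' _).1 h1
      exact ⟨⟨a, hAF W' ha⟩, h, fun _ => ⟨ha, hh, e1⟩⟩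
    · exact ⟨1, 1, fun h => absurd h hρ⟩
  choose c η hc using hc
  -- the classes
  let mk' : F → LL F H e W' ⧸ (LL F H e W).subgroupOf (LL F H e W') := fun k =>
    if hk : (k : G) ∈ LL F H e W' then ((⟨k, hk⟩ : LL F H e W') : _ ⧸ _) else ((1 : LL F H e W') : _ ⧸ _)
  have mk_pos : ∀ (k : F) (hk : (k : G) ∈ LL F H e W'), mk' k =
      ((⟨k, hk⟩ : LL F H e W') : LL F H e W' ⧸ (LL F H e W).subgroupOf (LL F H e W')) :=
    fun k hk => dif_pos hk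
  have mk_eq : ∀ (g g' : G) (hg : g ∈ LL F H e W') (hg' : g' ∈ LL F H e W'),
      (((⟨g, hg⟩ : LL F H e W') : LL F H e W' ⧸ (LL F H e W).subgroupOf (LL F H e W')) =
        ((⟨g', hg'⟩ : LL F H e W') : LL F H e W' ⧸ (LL F H e W).subgroupOf (LL F H e W')) ↔
      g⁻¹ * g' ∈ LL F H e W) := by
    intro g g' hg hg'
    rw [QuotientGroup.eq, Subgroup.mem_subgroupOf]
    rfl
  -- the sets `D`
  let D : G → FreeGroup Y → Y → Set (LL F H e W' ⧸ (LL F H e W).subgroupOf (LL F H e W')) :=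
    fun r u y => {x | ∃ k : F, (k : G) ∈ AA F H e W' ∧ mk' k = x ∧ cj F e r k ∈ Hs u y}
  have inv : ∀ r ∈ H, ∀ k k' : F, (k : G) ∈ AA F H e W' → (k' : G) ∈ AA F H e W' → mk' k = mk' k' →
      ∀ y, y ∉ W → ∀ u, (cj F e r k ∈ Hs u y ↔ cj F e r k' ∈ Hs u y) := by
    intro r hr k k' hk hk' hkk
    rw [mk_pos k (hAL W' hk), mk_pos k' (hAL W' hk'), mk_eq] at hkk
    have h1 : (k : G)⁻¹ * k' ∈ AA F H e W := by
      rw [← b8 W hFH]
      exact ⟨F.mul_mem (F.inv_mem k.2) k'.2, hkk⟩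
    have h2 : (cj F e r k)⁻¹ * cj F e r k' ∈ FW W := by
      rw [← map_inv, ← map_mul, cj_mem F e b1]
      exact h1 r hr
    exact (f2 W _ _).1 h2
  have memD : ∀ r ∈ H, ∀ k : F, (k : G) ∈ AA F H e W' → ∀ y, y ∉ W → ∀ u,
      (mk' k ∈ D r u y ↔ cj F e r k ∈ Hs u y) := by
    intro r hr k hk y hy u
    constructor
    · rintro ⟨k', hk', h1, h2⟩
      exact (inv r hr k' k hk' hk h1 y hy u).1 h2
    · intro h
      exact ⟨k, hk, rfl, h⟩
  -- representatives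
  have rep : ∀ x : LL F H e W' ⧸ (LL F H e W).subgroupOf (LL F H e W'),
      ∃ k : F, (k : G) ∈ AA F H e W' ∧ mk' k = x := by
    intro x
    obtain ⟨⟨g, hg⟩, rfl⟩ := QuotientGroup.mk_surjective x
    obtain ⟨a, ha, h, hh, e1⟩ := (b6 W' _).1 hg
    refine ⟨⟨a, hAF W' ha⟩, ha, ?_⟩
    rw [mk_pos ⟨a, hAF W' ha⟩ (hAL W' ha)]
    rw [mk_eq, e1]
    have e2 : a⁻¹ * (a * h) = h := by group
    rw [e2]
    exact hHL W hh
  -- generators and inverses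
  let T : Set (LL F H e W') := S ∪ (fun t => t⁻¹) '' S
  have hT : T.Finite := hS.union (hS.image _)
  -- the normal form of an edge
  have edge : ∀ x1 x2, (cosetG ((LL F H e W).subgroupOf (LL F H e W')) S).Adj x1 x2 →
      ∃ ρ ∈ R, ∃ t ∈ T, ∃ k : F, (k : G) ∈ AA F H e W' ∧ x1 = mk' k ∧ x2 = mk' (k * c ρ t) := by
    intro x1 x2 hadj
    obtain ⟨-, g0, s, hs, hgs⟩ := hadj
    obtain ⟨g, t, ht, e1, e2⟩ : ∃ (g t : LL F H e W'), t ∈ T ∧
        x1 = ((g : LL F H e W') : LL F H e W' ⧸ (LL F H e W).subgroupOf (LL F H e W')) ∧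
        x2 = ((g * t : LL F H e W') : LL F H e W' ⧸ (LL F H e W).subgroupOf (LL F H e W')) := by
      rcases hgs with ⟨h1, h2⟩ | ⟨h1, h2⟩
      · exact ⟨g0, s, Or.inl hs, h1, h2⟩
      · refine ⟨g0 * s, s⁻¹, Or.inr ⟨s, hs, rfl⟩, h2, ?_⟩
        rw [h1]
        congr 1
        group
    obtain ⟨a, ha, h, hh, e3⟩ := (b6 W' _).1 g.2
    obtain ⟨ρ, hρ, h0, hh0, e4⟩ := hR3 h hh
    obtain ⟨c1, c2, c3⟩ := hc ρ t (hR1 ρ hρ)
    have hk : a * h0 ∈ AA F H e W' := Subgroup.mul_mem _ ha (hFH' hh0)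
    refine ⟨ρ, hρ, t, ht, ⟨a * h0, hAF W' hk⟩, hk, ?_, ?_⟩
    · rw [e1, mk_pos _ (hAL W' hk)]
      have e5 : g = ⟨(g : G), g.2⟩ := rfl
      rw [e5, mk_eq, e3, e4]
      have e6 : (a * (h0 * ρ))⁻¹ * (a * h0) = ρ⁻¹ := by group
      show (a * (h0 * ρ))⁻¹ * (a * h0) ∈ _
      rw [e6]
      exact Subgroup.inv_mem _ (hHL W (hR1 ρ hρ))
    · have hkc : (((⟨a * h0, hAF W' hk⟩ * c ρ t : F)) : G) ∈ AA F H e W' := Subgroup.mul_mem _ hk c1
      rw [e2, mk_pos _ (hAL W' hkc)]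
      have e5 : g * t = ⟨(g : G) * t, (g * t).2⟩ := rfl
      rw [e5, mk_eq, e3, e4]
      show (a * (h0 * ρ) * (t : G))⁻¹ * (a * h0 * (c ρ t : G)) ∈ _
      have e6 : (a * (h0 * ρ) * (t : G))⁻¹ * (a * h0 * (c ρ t : G)) = (ρ * (t : G))⁻¹ * (c ρ t : G) := by
        group
      rw [e6, c3]
      have e7 : ((c ρ t : G) * η ρ t)⁻¹ * (c ρ t : G) = (η ρ t)⁻¹ := by group
      rw [e7]
      exact Subgroup.inv_mem _ (hHL W c2)
  -- the bound
  let I : Finset (G × LL F H e W') := R ×ˢ hT.toFinset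
  refine ⟨∑ r' ∈ R, ∑ p ∈ I, (cj F e r' (c p.1 p.2)).norm, ?_⟩
  intro x x' hxx
  obtain ⟨k, hk, rfl⟩ := rep x
  obtain ⟨k', hk', rfl⟩ := rep x'
  -- separation
  obtain ⟨r, hr, y, hy, u, hsep⟩ : ∃ r ∈ R, ∃ y, y ∉ W ∧ ∃ u,
      ¬ (cj F e r k ∈ Hs u y ↔ cj F e r k' ∈ Hs u y) := by
    by_contra hno
    push Not at hno
    apply hxx
    rw [mk_pos k (hAL W' hk), mk_pos k' (hAL W' hk'), mk_eq]
    apply hAL W
    intro h hh
    obtain ⟨r, hr, h0, hh0, e1⟩ := hR2 h hh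
    have h1 : (cj F e r k)⁻¹ * cj F e r k' ∈ FW W := by
      rw [f2 W]
      intro y hy g
      have h2 := hno r hr y hy g
      tauto
    rw [← map_inv, ← map_mul, cj_mem F e b1] at h1
    have h2 : h0 ∈ BB F e W := hFH hh0
    have h3 := Subgroup.mul_mem _ (Subgroup.mul_mem _ (Subgroup.inv_mem _ h2) h1) h2
    have e2 : h⁻¹ * ((k : G)⁻¹ * k') * h = h0⁻¹ * (r⁻¹ * ((k⁻¹ * k' : F) : G) * r) * h0 := by
      rw [e1]
      show (r * h0)⁻¹ * ((k : G)⁻¹ * k') * (r * h0) = h0⁻¹ * (r⁻¹ * ((k : G)⁻¹ * k') * r) * h0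
      group
    rw [e2]
    exact h3
  have hrH := hR1 r hr
  -- the coboundary
  have hsub : cob (cosetG ((LL F H e W).subgroupOf (LL F H e W')) S) (D r u y) ⊆
      ⋃ p ∈ I, (fun w : FreeGroup Y => (mk' ((cj F e r).symm w),
        mk' ((cj F e r).symm w * c p.1 p.2))) ''
          {w | w ∈ Hs u y ∧ w * cj F e r (c p.1 p.2) ∉ Hs u y} := by
    rintro ⟨x1, x2⟩ ⟨h1, h2, h3⟩
    obtain ⟨ρ, hρ, t, ht, a, ha, e1, e2⟩ := edge x1 x2 h1
    have h2' : x1 ∈ D r u y := h2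
    have h3' : x2 ∉ D r u y := h3
    obtain ⟨c1, c2, c3⟩ := hc ρ t (hR1 ρ hρ)
    have hac : ((a * c ρ t : F) : G) ∈ AA F H e W' := Subgroup.mul_mem _ ha c1
    rw [e1, memD r hrH a ha y hy u] at h2'
    rw [e2, memD r hrH _ hac y hy u, map_mul] at h3'
    rw [Set.mem_iUnion₂]
    refine ⟨(ρ, t), Finset.mem_product.2 ⟨hρ, hT.mem_toFinset.2 ht⟩, cj F e r a, ⟨h2', h3'⟩, ?_⟩
    show (mk' ((cj F e r).symm (cj F e r a)), mk' ((cj F e r).symm (cj F e r a) * c ρ t)) = (x1, x2)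
    rw [MulEquiv.symm_apply_apply, e1, e2]
  obtain ⟨g1, g2⟩ := biUnion_bound I (fun p => (fun w : FreeGroup Y => (mk' ((cj F e r).symm w),
        mk' ((cj F e r).symm w * c p.1 p.2))) ''
          {w | w ∈ Hs u y ∧ w * cj F e r (c p.1 p.2) ∉ Hs u y})
    (fun p => (cj F e r (c p.1 p.2)).norm) (fun p _ => by
      obtain ⟨h1, h2⟩ := f1 (cj F e r (c p.1 p.2)) u y
      exact ⟨h1.image _, (Set.ncard_image_le h1).trans h2⟩)
  refine ⟨D r u y, g1.subset hsub, ?_, ?_⟩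
  · refine (Set.ncard_le_ncard hsub g1).trans (g2.trans ?_)
    exact Finset.single_le_sum (f := fun r' => ∑ p ∈ I, (cj F e r' (c p.1 p.2)).norm)
      (fun _ _ => Nat.zero_le _) hr
  · rw [memD r hrH k hk y hy u, memD r hrH k' hk' y hy u]
    tauto

end Q251.LR2
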