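import Pool.Agent.Q32.LR2.Stm

/-! Project LR2 (helper32), jobs STA and STB: minimal cuts nested with a good family, and optimally
nested cuts. -/

set_option autoImplicit false

namespace Q251.LR2

open Q32.LR2

section basic

variable {V : Type}

theorem sp_symm {p q : Ultrafilter V} {W : Set V} (h : Sp p q W) : Sp q p W := by
  rcases h with ⟨h1, h2⟩ | ⟨h1, h2⟩
  · exact Or.inr ⟨h2, h1⟩
  · exact Or.inl ⟨h2, h1⟩

theorem lo_symm {X : SimpleGraph V} {n : ℕ} {p q : Ultrafilter V} (h : Lo X n p q) : Lo X n q p :=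
  fun W hW => h W (sp_symm hW)

theorem mem_inter' {p : Ultrafilter V} {U W : Set V} : U ∩ W ∈ p ↔ U ∈ p ∧ W ∈ p :=
  Filter.inter_mem_iff

theorem mem_compl' {p : Ultrafilter V} {U : Set V} : Uᶜ ∈ p ↔ U ∉ p :=
  Ultrafilter.compl_mem_iff_notMem

theorem sp_compl {p q : Ultrafilter V} {W : Set V} (h : Sp p q W) : Sp p q Wᶜ := by
  rcases h with ⟨h1, h2⟩ | ⟨h1, h2⟩
  · exact Or.inr ⟨fun h => (mem_compl'.1 h) h1, mem_compl'.2 h2⟩
  · exact Or.inl ⟨mem_compl'.2 h1, fun h => (mem_compl'.1 h) h2⟩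

theorem nst_compl_left (hNL : S_NL) {U W : Set V} : Nst Uᶜ W ↔ Nst U W := by
  constructor
  · intro h
    have := (hNL V Uᶜ W ∅).2.1 h
    rwa [compl_compl] at this
  · exact (hNL V U W ∅).2.1

theorem nst_compl_right (hNL : S_NL) {U W : Set V} : Nst U Wᶜ ↔ Nst U W := by
  constructor
  · intro h
    have := (hNL V U Wᶜ ∅).2.2.1 h
    rwa [compl_compl] at this
  · exact (hNL V U W ∅).2.2.1

end basic

theorem t_STA : S_STA := by
  intro hCO hNL hMT hCRF hFT V X hX P n B hB p hp q hq hLo hex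
  obtain ⟨co1, co2⟩ := hCO V X
  -- the crossings with `B`
  set cB : Set V → Set (Set V) := fun U => {Z | Z ∈ B ∧ ¬ Nst U Z} with hcB
  have hfin : ∀ U, (cob X U).Finite → (cB U).Finite := by
    intro U hU
    refine (hCRF hFT V X hX U hU n).subset ?_
    rintro Z ⟨hZ1, hZ2⟩
    obtain ⟨m, hm, hZm⟩ := hB.mc Z hZ1
    refine ⟨(hMT hCO V X hX P m Z hZm).1, hZm.1, ?_, hZ2⟩
    rw [hZm.2.1]
    exact hm.le
  have hcc : ∀ U, cB Uᶜ = cB U := by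
    intro U
    ext Z
    simp only [hcB, Set.mem_ofPred_eq, nst_compl_left hNL]
  have core : ∀ (p q r s : Ultrafilter V) (U W : Set V) (m : ℕ), (cob X U).Finite →
      (cob X U).ncard = n → Lo X n p q → (cob X W).Finite → (cob X W).ncard = m → Lo X m r s →
      W ∈ B → U ∈ p → U ∉ q → W ∈ p → W ∈ r → W ∉ s → U ∉ s → ¬ Nst U W →
      ∃ U', (cob X U').Finite ∧ (cob X U').ncard = n ∧ Sp p q U' ∧
        (cB U').ncard < (cB U).ncard := by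
    intro p q r s U W m f1 c1 l1 f2 c2 l2 hWB hUp hUq hWp hWr hWs hUs hN
    obtain ⟨g1, g2, g3⟩ := co2 U W f1 f2
    have s1 : Sp p q (U ∩ W) := Or.inl ⟨mem_inter'.2 ⟨hUp, hWp⟩, fun h => hUq (mem_inter'.1 h).1⟩
    have s2 : Sp r s (Uᶜ ∩ Wᶜ) := Or.inr ⟨fun h => mem_compl'.1 (mem_inter'.1 h).2 hWr,
      mem_inter'.2 ⟨mem_compl'.2 hUs, mem_compl'.2 hWs⟩⟩
    have h1 := l1 _ s1 g1
    have h2 := l2 _ s2 g2
    refine ⟨U ∩ W, g1, by omega, s1, ?_⟩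
    apply Set.ncard_lt_ncard _ (hfin U f1)
    refine ⟨?_, ?_⟩
    · rintro Z ⟨hZ1, hZ2⟩
      refine ⟨hZ1, fun hZ3 => hZ2 ?_⟩
      exact ((hNL V U W Z).2.2.2.2.1 hN hZ3 (hB.nst W hWB Z hZ1)).1
    · intro hsub
      have h3 : W ∈ cB U := ⟨hWB, hN⟩
      exact (hsub h3).2 (hNL V U W ∅).2.2.2.1.2.1
  have core2 : ∀ (p q r s : Ultrafilter V) (U W : Set V) (m : ℕ), (cob X U).Finite →
      (cob X U).ncard = n → Lo X n p q → (cob X W).Finite → (cob X W).ncard = m → Lo X m r s →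
      W ∈ B → U ∈ p → U ∉ q → W ∈ p → W ∈ q → W ∈ r → W ∉ s → ¬ Nst U W →
      ∃ U', (cob X U').Finite ∧ (cob X U').ncard = n ∧ Sp p q U' ∧
        (cB U').ncard < (cB U).ncard := by
    intro p q r s U W m f1 c1 l1 f2 c2 l2 hWB hUp hUq hWp hWq hWr hWs hN
    by_cases hUs : U ∈ s
    · obtain ⟨g1, g2⟩ := co1 U f1
      obtain ⟨U', h1, h2, h3, h4⟩ := core q p r s Uᶜ W m g1 (g2.trans c1) (lo_symm l1) f2 c2 l2 hWB
        (mem_compl'.2 hUq) (fun h => mem_compl'.1 h hUp) hWq hWr hWs (fun h => mem_compl'.1 h hUs)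
        (fun h => hN ((nst_compl_left hNL).1 h))
      rw [hcc] at h4
      exact ⟨U', h1, h2, sp_symm h3, h4⟩
    · exact core p q r s U W m f1 c1 l1 f2 c2 l2 hWB hUp hUq hWp hWr hWs hUs hN
  -- all orientations of `W`
  have core3 : ∀ (p q : Ultrafilter V) (U : Set V), (cob X U).Finite →
      (cob X U).ncard = n → Lo X n p q → U ∈ p → U ∉ q → ∀ W ∈ B, ¬ Nst U W →
      ∃ U', (cob X U').Finite ∧ (cob X U').ncard = n ∧ Sp p q U' ∧
        (cB U').ncard < (cB U).ncard := by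
    intro p q U f1 c1 l1 hUp hUq W hWB hN
    obtain ⟨m, hm, f2, c2, r, hr, s, hs, hsp, l2⟩ := hB.mc W hWB
    have hns : ¬ Sp p q W := by
      intro h
      have := l1 W h f2
      omega
    have hN' : ¬ Nst U Wᶜ := fun h => hN ((nst_compl_right hNL).1 h)
    obtain ⟨f3, c3⟩ := co1 W f2
    by_cases hWp : W ∈ p
    · have hWq : W ∈ q := by
        by_contra h
        exact hns (Or.inl ⟨hWp, h⟩)
      rcases hsp with ⟨h1, h2⟩ | ⟨h1, h2⟩
      · exact core2 p q r s U W m f1 c1 l1 f2 c2 l2 hWB hUp hUq hWp hWq h1 h2 hN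
      · exact core2 p q s r U W m f1 c1 l1 f2 c2 (lo_symm l2) hWB hUp hUq hWp hWq h2 h1 hN
    · have hWq : W ∉ q := by
        intro h
        exact hns (Or.inr ⟨hWp, h⟩)
      rcases sp_compl hsp with ⟨h1, h2⟩ | ⟨h1, h2⟩
      · exact core2 p q r s U Wᶜ m f1 c1 l1 f3 (c3.trans c2) l2 (hB.compl W hWB) hUp hUq
          (mem_compl'.2 hWp) (mem_compl'.2 hWq) h1 h2 hN'
      · exact core2 p q s r U Wᶜ m f1 c1 l1 f3 (c3.trans c2) (lo_symm l2) (hB.compl W hWB) hUp hUq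
          (mem_compl'.2 hWp) (mem_compl'.2 hWq) h2 h1 hN'
  -- the minimum
  let T : Set ℕ := {k | ∃ U, (cob X U).Finite ∧ (cob X U).ncard = n ∧ Sp p q U ∧ (cB U).ncard = k}
  have hT : T.Nonempty := by
    obtain ⟨U, h1, h2, h3⟩ := hex
    exact ⟨_, U, h2, h3, h1, rfl⟩
  obtain ⟨U, f1, c1, s1, k1⟩ := Nat.sInf_mem hT
  have hmin : ∀ U', (cob X U').Finite → (cob X U').ncard = n → Sp p q U' →
      (cB U).ncard ≤ (cB U').ncard := by
    intro U' h1 h2 h3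
    rw [k1]
    exact Nat.sInf_le ⟨U', h1, h2, h3, rfl⟩
  refine ⟨U, ⟨⟨f1, c1, p, hp, q, hq, s1, hLo⟩, ?_⟩, s1⟩
  intro W hWB
  by_contra hN
  rcases s1 with ⟨h1, h2⟩ | ⟨h1, h2⟩
  · obtain ⟨U', g1, g2, g3, g4⟩ := core3 p q U f1 c1 hLo h1 h2 W hWB hN
    exact absurd (hmin U' g1 g2 g3) (not_le.2 g4)
  · obtain ⟨U', g1, g2, g3, g4⟩ := core3 q p U f1 c1 (lo_symm hLo) h2 h1 W hWB hN
    exact absurd (hmin U' g1 g2 (sp_symm g3)) (not_le.2 g4)

theorem t_STB : S_STB := by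
  intro hCO hNL hMT hCRF hFT V X hX P n B hB
  obtain ⟨co1, co2⟩ := hCO V X
  set N : Set (Set V) := NC X P n B with hN
  have hfin : ∀ U, (cob X U).Finite → (cr N U).Finite := by
    intro U hU
    refine (hCRF hFT V X hX U hU n).subset ?_
    rintro Z ⟨hZ1, hZ2⟩
    exact ⟨(hMT hCO V X hX P n Z hZ1.1).1, hZ1.1.1, hZ1.1.2.1.le, hZ2⟩
  have hcc : ∀ U, cr N Uᶜ = cr N U := by
    intro U
    ext Z
    simp only [cr, Set.mem_ofPred_eq, nst_compl_left hNL]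
  have hNc : ∀ U ∈ N, Uᶜ ∈ N := by
    rintro U ⟨⟨h1, h2, p, hp, q, hq, h3, h4⟩, h5⟩
    obtain ⟨g1, g2⟩ := co1 U h1
    exact ⟨⟨g1, g2.trans h2, p, hp, q, hq, sp_compl h3, h4⟩,
      fun Z hZ => (nst_compl_left hNL).2 (h5 Z hZ)⟩
  -- corners
  have CL : ∀ U ∈ N, ∀ W ∈ N, ¬ Nst U W → ∀ x ∈ P, ∀ y ∈ P, ∀ x' ∈ P, ∀ y' ∈ P, Lo X n x y →
      Lo X n x' y' → Sp x y (U ∩ W) → Sp x' y' (Uᶜ ∩ Wᶜ) →
      U ∩ W ∈ N ∧ Uᶜ ∩ Wᶜ ∈ N ∧
        (cr N (U ∩ W)).ncard + (cr N (Uᶜ ∩ Wᶜ)).ncard < (cr N U).ncard + (cr N W).ncard := by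
    intro U hU W hW hUW x hx y hy x' hx' y' hy' l1 l2 s1 s2
    have f1 := hU.1.1
    have f2 := hW.1.1
    have c1 := hU.1.2.1
    have c2 := hW.1.2.1
    obtain ⟨g1, g2, g3⟩ := co2 U W f1 f2
    have h1 := l1 _ s1 g1
    have h2 := l2 _ s2 g2
    have n5 := fun Z => (hNL V U W Z).2.2.2.2.1 hUW
    have n4 := (hNL V U W ∅).2.2.2.1
    have n67 := fun Z => (hNL V U W Z).2.2.2.2.2
    refine ⟨⟨⟨g1, by omega, x, hx, y, hy, s1, l1⟩, fun Z hZ => (n5 Z (hU.2 Z hZ) (hW.2 Z hZ)).1⟩,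
      ⟨⟨g2, by omega, x', hx', y', hy', s2, l2⟩, fun Z hZ => (n5 Z (hU.2 Z hZ) (hW.2 Z hZ)).2⟩, ?_⟩
    have e1 := Set.ncard_union_add_ncard_inter (cr N (U ∩ W)) (cr N (Uᶜ ∩ Wᶜ)) (hfin _ g1)
      (hfin _ g2)
    have e2 := Set.ncard_union_add_ncard_inter (cr N U) (cr N W) (hfin _ f1) (hfin _ f2)
    have e3 : (cr N (U ∩ W) ∩ cr N (Uᶜ ∩ Wᶜ)).ncard ≤ (cr N U ∩ cr N W).ncard := by
      apply Set.ncard_le_ncard _ ((hfin _ f1).inter_of_left _)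
      rintro Z ⟨⟨hZ1, hZ2⟩, ⟨_, hZ3⟩⟩
      refine ⟨⟨hZ1, fun h => ?_⟩, ⟨hZ1, fun h => ?_⟩⟩
      · rcases (n67 Z).2 h with h | h
        · exact hZ2 h
        · exact hZ3 h
      · rcases (n67 Z).1 h with h | h
        · exact hZ2 h
        · exact hZ3 h
    have e4 : (cr N (U ∩ W) ∪ cr N (Uᶜ ∩ Wᶜ)).ncard < (cr N U ∪ cr N W).ncard := by
      apply Set.ncard_lt_ncard _ ((hfin _ f1).union (hfin _ f2))
      refine ⟨?_, ?_⟩
      · rintro Z (⟨hZ1, hZ2⟩ | ⟨hZ1, hZ2⟩)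
        · by_cases h3 : Nst U Z
          · by_cases h4 : Nst W Z
            · exact absurd (n5 Z h3 h4).1 hZ2
            · exact Or.inr ⟨hZ1, h4⟩
          · exact Or.inl ⟨hZ1, h3⟩
        · by_cases h3 : Nst U Z
          · by_cases h4 : Nst W Z
            · exact absurd (n5 Z h3 h4).2 hZ2
            · exact Or.inr ⟨hZ1, h4⟩
          · exact Or.inl ⟨hZ1, h3⟩
      · intro hsub
        have h3 : W ∈ cr N U ∪ cr N W := Or.inl ⟨hW, hUW⟩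
        rcases hsub h3 with h4 | h4
        · exact h4.2 n4.2.1
        · exact h4.2 n4.2.2.2
    omega
  -- optimal cuts
  let Opt : Set V → Ultrafilter V → Ultrafilter V → Prop := fun U p q => U ∈ N ∧ p ∈ P ∧ q ∈ P ∧
    Sp p q U ∧ Lo X n p q ∧ ∀ W ∈ N, Sp p q W → (cr N U).ncard ≤ (cr N W).ncard
  have opt_symm : ∀ U p q, Opt U p q → Opt U q p := by
    rintro U p q ⟨h1, h2, h3, h4, h5, h6⟩
    exact ⟨h1, h3, h2, sp_symm h4, lo_symm h5, fun W hW hs => h6 W hW (sp_symm hs)⟩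
  have opt_compl : ∀ U p q, Opt U p q → Opt Uᶜ p q := by
    rintro U p q ⟨h1, h2, h3, h4, h5, h6⟩
    refine ⟨hNc U h1, h2, h3, sp_compl h4, h5, fun W hW hs => ?_⟩
    rw [hcc]
    exact h6 W hW hs
  -- opposite corners do not separate the two pairs
  have IL : ∀ U p q W r s, Opt U p q → Opt W r s → ¬ Nst U W → Sp p q (U ∩ W) →
      Sp r s (Uᶜ ∩ Wᶜ) → False := by
    intro U p q W r s hU hW hUW s1 s2
    obtain ⟨u1, u2, u3, u4, u5, u6⟩ := hU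
    obtain ⟨w1, w2, w3, w4, w5, w6⟩ := hW
    obtain ⟨g1, g2, g3⟩ := CL U u1 W w1 hUW p u2 q u3 r w2 s w3 u5 w5 s1 s2
    have h1 := u6 _ g1 s1
    have h2 := w6 _ g2 s2
    omega
  have IL' : ∀ U p q W r s, Opt U p q → Opt W r s → ¬ Nst U W → Sp r s (U ∩ W) →
      Sp p q (Uᶜ ∩ Wᶜ) → False := by
    intro U p q W r s hU hW hUW s1 s2
    obtain ⟨u1, u2, u3, u4, u5, u6⟩ := hU
    obtain ⟨w1, w2, w3, w4, w5, w6⟩ := hW
    obtain ⟨g1, g2, g3⟩ := CL U u1 W w1 hUW r w2 s w3 p u2 q u3 w5 u5 s1 s2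
    have h1 := u6 _ g2 s2
    have h2 := w6 _ g1 s1
    omega
  -- case 1, normalised
  have c1 : ∀ U p q W r s, Opt U p q → Opt W r s → ¬ Nst U W → U ∈ p → U ∉ q → W ∈ p → W ∉ q →
      W ∈ r → W ∉ s → False := by
    intro U p q W r s hU hW hUW hUp hUq hWp hWq hWr hWs
    have s1 : Sp p q (U ∩ W) := Or.inl ⟨mem_inter'.2 ⟨hUp, hWp⟩, fun h => hUq (mem_inter'.1 h).1⟩
    have s2 : Sp p q (Uᶜ ∩ Wᶜ) := Or.inr ⟨fun h => mem_compl'.1 (mem_inter'.1 h).1 hUp,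
      mem_inter'.2 ⟨mem_compl'.2 hUq, mem_compl'.2 hWq⟩⟩
    by_cases hUr : U ∈ r
    · exact IL' U p q W r s hU hW hUW
        (Or.inl ⟨mem_inter'.2 ⟨hUr, hWr⟩, fun h => hWs (mem_inter'.1 h).2⟩) s2
    · by_cases hUs : U ∈ s
      · have s3 : Sp r s (Uᶜ ∩ W) := Or.inl ⟨mem_inter'.2 ⟨mem_compl'.2 hUr, hWr⟩,
          fun h => hWs (mem_inter'.1 h).2⟩
        have s4 : Sp r s (Uᶜᶜ ∩ Wᶜ) := Or.inr ⟨fun h => mem_compl'.1 (mem_inter'.1 h).2 hWr,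
          mem_inter'.2 ⟨by rw [compl_compl]; exact hUs, mem_compl'.2 hWs⟩⟩
        obtain ⟨u1, u2, u3, u4, u5, u6⟩ := hU
        obtain ⟨w1, w2, w3, w4, w5, w6⟩ := hW
        obtain ⟨g1, g2, g3⟩ := CL U u1 W w1 hUW p u2 q u3 p u2 q u3 u5 u5 s1 s2
        obtain ⟨g4, g5, g6⟩ := CL Uᶜ (hNc U u1) W w1 (fun h => hUW ((nst_compl_left hNL).1 h))
          r w2 s w3 r w2 s w3 w5 w5 s3 s4
        have h1 := u6 _ g1 s1
        have h2 := u6 _ g2 s2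
        have h3 := w6 _ g4 s3
        have h4 := w6 _ g5 s4
        rw [hcc U] at g6
        omega
      · exact IL U p q W r s hU hW hUW s1 (Or.inr ⟨fun h => mem_compl'.1 (mem_inter'.1 h).2 hWr,
          mem_inter'.2 ⟨mem_compl'.2 hUs, mem_compl'.2 hWs⟩⟩)
  have ncl : ∀ U W : Set V, ¬ Nst U W → ¬ Nst Uᶜ W := fun U W h h' => h ((nst_compl_left hNL).1 h')
  have ncr : ∀ U W : Set V, ¬ Nst U W → ¬ Nst U Wᶜ := fun U W h h' => h ((nst_compl_right hNL).1 h')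
  have mcc : ∀ (p : Ultrafilter V) (U : Set V), U ∈ p → Uᶜ ∉ p := fun p U h h' => mem_compl'.1 h' h
  -- case 1: `W` separates `p`, `q`
  have c2 : ∀ U p q W r s, Opt U p q → Opt W r s → ¬ Nst U W → Sp p q W → False := by
    -- first with `U ∈ p`, `W ∈ p`
    have d1 : ∀ U p q W r s, Opt U p q → Opt W r s → ¬ Nst U W → U ∈ p → U ∉ q → W ∈ p → W ∉ q →
        False := by
      intro U p q W r s hU hW hUW h1 h2 h3 h4
      rcases hW.2.2.2.1 with ⟨h5, h6⟩ | ⟨h5, h6⟩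
      · exact c1 U p q W r s hU hW hUW h1 h2 h3 h4 h5 h6
      · exact c1 U p q W s r hU (opt_symm W r s hW) hUW h1 h2 h3 h4 h6 h5
    have d2 : ∀ U p q W r s, Opt U p q → Opt W r s → ¬ Nst U W → W ∈ p → W ∉ q →
        False := by
      intro U p q W r s hU hW hUW h3 h4
      rcases hU.2.2.2.1 with ⟨h5, h6⟩ | ⟨h5, h6⟩
      · exact d1 U p q W r s hU hW hUW h5 h6 h3 h4
      · exact d1 Uᶜ p q W r s (opt_compl U p q hU) hW (ncl U W hUW) (mem_compl'.2 h5) (mcc q U h6)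
          h3 h4
    intro U p q W r s hU hW hUW hs
    rcases hs with ⟨h5, h6⟩ | ⟨h5, h6⟩
    · exact d2 U p q W r s hU hW hUW h5 h6
    · exact d2 U q p W r s (opt_symm U p q hU) hW hUW h6 h5
  -- case 3
  have c3 : ∀ U p q W r s, Opt U p q → Opt W r s → ¬ Nst U W → W ∈ p → W ∈ q → U ∈ r → U ∈ s →
      False := by
    have d1 : ∀ U p q W r s, Opt U p q → Opt W r s → ¬ Nst U W → W ∈ p → W ∈ q → U ∈ r → U ∈ s →
        U ∈ p → U ∉ q → W ∈ r → W ∉ s → False := by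
      intro U p q W r s hU hW hUW h1 h2 h3 h4 h5 h6 h7 h8
      refine IL Uᶜ p q W r s (opt_compl U p q hU) hW (ncl U W hUW) ?_ ?_
      · exact Or.inr ⟨fun h => mem_compl'.1 (mem_inter'.1 h).1 h5,
          mem_inter'.2 ⟨mem_compl'.2 h6, h2⟩⟩
      · exact Or.inr ⟨fun h => mem_compl'.1 (mem_inter'.1 h).2 h7,
          mem_inter'.2 ⟨by rw [compl_compl]; exact h4, mem_compl'.2 h8⟩⟩
    intro U p q W r s hU hW hUW h1 h2 h3 h4
    rcases hU.2.2.2.1 with ⟨h5, h6⟩ | ⟨h5, h6⟩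
    · rcases hW.2.2.2.1 with ⟨h7, h8⟩ | ⟨h7, h8⟩
      · exact d1 U p q W r s hU hW hUW h1 h2 h3 h4 h5 h6 h7 h8
      · exact d1 U p q W s r hU (opt_symm W r s hW) hUW h1 h2 h4 h3 h5 h6 h8 h7
    · rcases hW.2.2.2.1 with ⟨h7, h8⟩ | ⟨h7, h8⟩
      · exact d1 U q p W r s (opt_symm U p q hU) hW hUW h2 h1 h3 h4 h6 h5 h7 h8
      · exact d1 U q p W s r (opt_symm U p q hU) (opt_symm W r s hW) hUW h2 h1 h4 h3 h6 h5 h8 h7
  -- conclusion
  rintro U ⟨hU, p, hp, q, hq, u1, u2, u3⟩ W ⟨hW, r, hr, s, hs, w1, w2, w3⟩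
  by_contra hUW
  have hUo : Opt U p q := ⟨hU, hp, hq, u1, u2, u3⟩
  have hWo : Opt W r s := ⟨hW, hr, hs, w1, w2, w3⟩
  by_cases k1 : Sp p q W
  · exact c2 U p q W r s hUo hWo hUW k1
  · by_cases k2 : Sp r s U
    · exact c2 W r s U p q hWo hUo (fun h => hUW ((hNL V W U ∅).1 h)) k2
    · -- neither
      have f1 : W ∈ p ↔ W ∈ q := by
        constructor
        · intro h
          by_contra h'
          exact k1 (Or.inl ⟨h, h'⟩)
        · intro h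
          by_contra h'
          exact k1 (Or.inr ⟨h', h⟩)
      have f2 : U ∈ r ↔ U ∈ s := by
        constructor
        · intro h
          by_contra h'
          exact k2 (Or.inl ⟨h, h'⟩)
        · intro h
          by_contra h'
          exact k2 (Or.inr ⟨h', h⟩)
      by_cases h1 : W ∈ p
      · by_cases h2 : U ∈ r
        · exact c3 U p q W r s hUo hWo hUW h1 (f1.1 h1) h2 (f2.1 h2)
        · exact c3 Uᶜ p q W r s (opt_compl U p q hUo) hWo (ncl U W hUW) h1 (f1.1 h1)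
            (mem_compl'.2 h2) (mem_compl'.2 fun h => h2 (f2.2 h))
      · by_cases h2 : U ∈ r
        · exact c3 U p q Wᶜ r s hUo (opt_compl W r s hWo) (ncr U W hUW) (mem_compl'.2 h1)
            (mem_compl'.2 fun h => h1 (f1.2 h)) h2 (f2.1 h2)
        · exact c3 Uᶜ p q Wᶜ r s (opt_compl U p q hUo) (opt_compl W r s hWo)
            (ncl U Wᶜ (ncr U W hUW)) (mem_compl'.2 h1) (mem_compl'.2 fun h => h1 (f1.2 h))
            (mem_compl'.2 h2) (mem_compl'.2 fun h => h2 (f2.2 h))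

end Q251.LR2
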